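import Pool.Agent.Lib.MP_5ac201_gt.Main

namespace Pool.Agent.Results.MP_5ac201_gt.Convergence

open Pool.Agent.Lib.MP_5ac201_gt
open scoped Pointwise

theorem result : ∀ (n : ℕ), 3 ≤ n → ∀ (K : Set (EuclideanSpace ℝ (Fin n))),
    IsCompact K → Convex ℝ K → (interior K).Nonempty → K = -K →
    Filter.Tendsto (fun m : ℕ => bmDist (intersectionBody^[m] K) (Metric.closedBall 0 1))
      Filter.atTop (nhds 1) :=
  fun _ hn _ hc hconv hint hsym => main hn hc hconv hint hsym

end Pool.Agent.Results.MP_5ac201_gt.Convergence
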